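import Pool.Agent.Run7.h928.BE.TWD

/-!
# The piece HFX: finiteness of the spaces of morphisms of `D^b`
-/

set_option autoImplicit false
set_option linter.unusedSectionVars false

open CategoryTheory CategoryTheory.Limits Pretriangulated Triangulated Complex ZeroObject

namespace Run7.h928.BE

open Run7.h354.BE

universe w v u v' u'

theorem fin_exact {A B D : Type*} [AddCommGroup A] [Module ℂ A] [AddCommGroup B] [Module ℂ B]
    [AddCommGroup D] [Module ℂ D] (f : A →ₗ[ℂ] B) (g : B →ₗ[ℂ] D)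
    (h : ∀ b, g b = 0 → ∃ a, f a = b) (hA : Module.Finite ℂ A) (hD : Module.Finite ℂ D) :
    Module.Finite ℂ B := by
  have h1 : Module.Finite ℂ (LinearMap.range f) := inferInstance
  have h2 : Module.Finite ℂ (LinearMap.range g) := inferInstance
  refine ⟨(⊤ : Submodule ℂ B).fg_of_fg_map_of_fg_inf_ker g ?_ ?_⟩
  · rw [Submodule.map_top]
    exact Module.Finite.iff_fg.1 h2
  · have e : LinearMap.ker g ≤ LinearMap.range f := fun b hb => h b hb
    rw [top_inf_eq]
    have h3 : Module.Finite ℂ (LinearMap.ker g) := Submodule.finiteDimensional_of_le e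
    exact Module.Finite.iff_fg.1 h3

theorem fin_retr {A B : Type*} [AddCommGroup A] [Module ℂ A] [AddCommGroup B] [Module ℂ B]
    (f : A →ₗ[ℂ] B) (g : B →ₗ[ℂ] A) (h : ∀ a, g (f a) = a) (hB : Module.Finite ℂ B) :
    Module.Finite ℂ A :=
  Module.Finite.of_surjective g fun a => ⟨f a, h a⟩

section hom

variable {C : Type u} [Category.{v} C] [Preadditive C] [Linear ℂ C] [HasZeroObject C]
  [HasShift C ℤ] [∀ n : ℤ, (shiftFunctor C n).Additive] [∀ n : ℤ, (shiftFunctor C n).Linear ℂ]
  [Pretriangulated C]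

theorem fin_iso {X X' Y Y' : C} (e : X ≅ X') (f : Y ≅ Y') (h : Module.Finite ℂ (X' ⟶ Y')) :
    Module.Finite ℂ (X ⟶ Y) :=
  fin_retr ((Linear.leftComp ℂ Y' e.inv).comp (Linear.rightComp ℂ X f.hom))
    ((Linear.leftComp ℂ Y e.hom).comp (Linear.rightComp ℂ X' f.inv)) (fun a => by
      show e.hom ≫ (e.inv ≫ a ≫ f.hom) ≫ f.inv = a
      simp) h

theorem fin_zero {X Y : C} (h : IsZero X ∨ IsZero Y) : Module.Finite ℂ (X ⟶ Y) := by
  have : Subsingleton (X ⟶ Y) := by
    rcases h with h | h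
    · exact ⟨fun a b => h.eq_of_src a b⟩
    · exact ⟨fun a b => h.eq_of_tgt a b⟩
  infer_instance

/-- The shift acts on the spaces of morphisms. -/
theorem fin_shift {X Y : C} (k : ℤ) (h : Module.Finite ℂ (X⟦k⟧ ⟶ Y⟦k⟧)) : Module.Finite ℂ (X ⟶ Y) :=
  Module.Finite.of_injective ((shiftFunctor C k).mapLinearMap ℂ : (X ⟶ Y) →ₗ[ℂ] _)
    (shiftFunctor C k).map_injective

theorem units_comp (ε : ℤˣ) {X Y Z : C} (g : X ⟶ Y) (h : Y ⟶ Z) : (ε • g) ≫ h = g ≫ (ε • h) := by
  rw [Units.smul_def, Units.smul_def, Preadditive.comp_zsmul, Preadditive.zsmul_comp]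

/-- The objects with finite spaces of morphisms to all the shifts of `Y`. -/
def QL (Y : C) : ObjectProperty C := fun X => ∀ n : ℤ, Module.Finite ℂ (X ⟶ Y⟦n⟧)

/-- The objects with finite spaces of morphisms from `X` to all their shifts. -/
def QR (X : C) : ObjectProperty C := fun Y => ∀ n : ℤ, Module.Finite ℂ (X ⟶ Y⟦n⟧)

instance (Y : C) : (QL Y).IsStableUnderRetracts where
  of_retract {X X'} r h n := fin_retr (Linear.leftComp ℂ _ r.r) (Linear.leftComp ℂ _ r.i)
    (fun a => by
      show r.i ≫ r.r ≫ a = a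
      rw [← Category.assoc, r.retract, Category.id_comp]) (h n)

instance (X : C) : (QR X).IsStableUnderRetracts where
  of_retract {Y Y'} r h n := fin_retr (Linear.rightComp ℂ _ ((shiftFunctor C n).map r.i))
    (Linear.rightComp ℂ _ ((shiftFunctor C n).map r.r))
    (fun a => by
      show (a ≫ (shiftFunctor C n).map r.i) ≫ (shiftFunctor C n).map r.r = a
      rw [Category.assoc, ← Functor.map_comp, r.retract, CategoryTheory.Functor.map_id,
        Category.comp_id]) (h n)

instance (Y : C) : (QL Y).IsTriangulated where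
  exists_zero := ⟨0, isZero_zero _, fun n => fin_zero (Or.inl (isZero_zero _))⟩
  isStableUnderShiftBy k := ⟨fun X hX n => by
    refine fin_shift (-k) ?_
    exact fin_iso ((shiftFunctorCompIsoId C k (-k) (by lia)).app X)
      ((shiftFunctorAdd C n (-k)).app Y).symm (hX (n + -k))⟩
  ext₂' T hT h₁ h₃ := ObjectProperty.le_isoClosure _ _ fun n =>
    fin_exact (Linear.leftComp ℂ _ T.mor₂) (Linear.leftComp ℂ _ T.mor₁) (fun b hb => by
      obtain ⟨g, hg⟩ := Triangle.yoneda_exact₂ T hT b hb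
      exact ⟨g, hg.symm⟩) (h₃ n) (h₁ n)

instance (X : C) : (QR X).IsTriangulated where
  exists_zero := ⟨0, isZero_zero _, fun n =>
    fin_zero (Or.inr (Functor.map_isZero _ (isZero_zero _)))⟩
  isStableUnderShiftBy k := ⟨fun Y hY n => 
    fin_iso (Iso.refl X) ((shiftFunctorAdd C k n).app Y).symm (hY (k + n))⟩
  ext₂' T hT h₁ h₃ := ObjectProperty.le_isoClosure _ _ fun n =>
    fin_exact (Linear.rightComp ℂ X ((shiftFunctor C n).map T.mor₁))
      (Linear.rightComp ℂ X ((shiftFunctor C n).map T.mor₂)) (fun b hb => by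
      have hT' := Triangle.shift_distinguished _ hT n
      obtain ⟨g, hg⟩ := Triangle.coyoneda_exact₂ _ hT' b (by
        show b ≫ (n.negOnePow • (shiftFunctor C n).map T.mor₂) = 0
        have hb' : b ≫ (shiftFunctor C n).map T.mor₂ = 0 := hb
        rw [Units.smul_def, Preadditive.comp_zsmul, hb', smul_zero])
      have hg' : b = g ≫ (n.negOnePow • (shiftFunctor C n).map T.mor₁) := hg
      let g' : X ⟶ (shiftFunctor C n).obj T.obj₁ := g
      exact ⟨n.negOnePow • g', (units_comp _ g' _).trans hg'.symm⟩) (h₁ n) (h₃ n)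

end hom

/-- **HFX** -/
theorem hfx : S_HF.{w} → S_HFX.{w} := by
  intro hHF τ τ' hτ hτ' _ X Y hX hY
  have h1 : ∀ b, DbX τ τ' ≤ QL (lb τ τ' b) := fun b => DbX_le τ τ' _ fun a n => hHF τ τ' hτ hτ' a b n
  have h2 : DbX τ τ' ≤ QR X := DbX_le τ τ' _ fun b n => h1 b X hX n
  have h3 := h2 Y hY 0
  exact fin_iso (Iso.refl X) ((shiftFunctorZero _ ℤ).app Y).symm h3

end Run7.h928.BE
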