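import Pool.Agent.Run7.h928.BE.TWD
import Pool.Agent.Run7.h354.BE.Stm4

/-!
# The piece PBT: the inverse image commutes with the twists
-/

set_option autoImplicit false
set_option linter.unusedSectionVars false

open CategoryTheory CategoryTheory.Limits Pretriangulated Triangulated Complex ZeroObject

namespace Run7.h928.BE

open Run7.h354.BE

universe w w' v u v' u' v₁ u₁ v₂ u₂ v₃ u₃ v₄ u₄ v₅ u₅ v₆ u₆ v₇ u₇ v₈ u₈

/-- The lifting of a commutative square to localizations. -/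
noncomputable def liftSq {A₁ : Type u₁} [Category.{v₁} A₁] {A₂ : Type u₂} [Category.{v₂} A₂]
    {A₂' : Type u₃} [Category.{v₃} A₂'] {A₃ : Type u₄} [Category.{v₄} A₃]
    {B₁ : Type u₅} [Category.{v₅} B₁] {B₂ : Type u₆} [Category.{v₆} B₂]
    {B₂' : Type u₇} [Category.{v₇} B₂'] {B₃ : Type u₈} [Category.{v₈} B₃]
    (L₁ : A₁ ⥤ B₁) (W₁ : MorphismProperty A₁) [L₁.IsLocalization W₁]
    {L₂ : A₂ ⥤ B₂} {L₂' : A₂' ⥤ B₂'} {L₃ : A₃ ⥤ B₃}
    {F : A₁ ⥤ A₂} {G : A₂ ⥤ A₃} {H : A₁ ⥤ A₂'} {K : A₂' ⥤ A₃}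
    {F' : B₁ ⥤ B₂} {G' : B₂ ⥤ B₃} {H' : B₁ ⥤ B₂'} {K' : B₂' ⥤ B₃}
    (eF : L₁ ⋙ F' ≅ F ⋙ L₂) (eG : L₂ ⋙ G' ≅ G ⋙ L₃) (eH : L₁ ⋙ H' ≅ H ⋙ L₂')
    (eK : L₂' ⋙ K' ≅ K ⋙ L₃) (e : F ⋙ G ≅ H ⋙ K) : F' ⋙ G' ≅ H' ⋙ K' :=
  letI : Localization.Lifting L₁ W₁ ((F ⋙ G) ⋙ L₃) (F' ⋙ G') :=
    ⟨(Functor.associator _ _ _).symm ≪≫ Functor.isoWhiskerRight eF G' ≪≫
      Functor.associator _ _ _ ≪≫ Functor.isoWhiskerLeft F eG ≪≫ (Functor.associator _ _ _).symm⟩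
  letI : Localization.Lifting L₁ W₁ ((H ⋙ K) ⋙ L₃) (H' ⋙ K') :=
    ⟨(Functor.associator _ _ _).symm ≪≫ Functor.isoWhiskerRight eH K' ≪≫
      Functor.associator _ _ _ ≪≫ Functor.isoWhiskerLeft H eK ≪≫ (Functor.associator _ _ _).symm⟩
  Localization.liftNatIso L₁ W₁ ((F ⋙ G) ⋙ L₃) ((H ⋙ K) ⋙ L₃) _ _ (Functor.isoWhiskerRight e L₃)

/-- The lifting of a commutative square of exact functors to derived categories. -/
noncomputable def derSq {A₁ : Type u₁} [Category.{v₁} A₁] [Abelian A₁] [HasDerivedCategory.{w} A₁]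
    {A₂ : Type u₂} [Category.{v₂} A₂] [Abelian A₂] [HasDerivedCategory.{w} A₂]
    {A₂' : Type u₃} [Category.{v₃} A₂'] [Abelian A₂'] [HasDerivedCategory.{w'} A₂']
    {A₃ : Type u₄} [Category.{v₄} A₃] [Abelian A₃] [HasDerivedCategory.{w'} A₃]
    (F : A₁ ⥤ A₂) (G : A₂ ⥤ A₃) (H : A₁ ⥤ A₂') (K : A₂' ⥤ A₃)
    [F.Additive] [PreservesFiniteLimits F] [PreservesFiniteColimits F]
    [G.Additive] [PreservesFiniteLimits G] [PreservesFiniteColimits G]
    [H.Additive] [PreservesFiniteLimits H] [PreservesFiniteColimits H]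
    [K.Additive] [PreservesFiniteLimits K] [PreservesFiniteColimits K]
    (e : F ⋙ G ≅ H ⋙ K) :
    F.mapDerivedCategory ⋙ G.mapDerivedCategory ≅ H.mapDerivedCategory ⋙ K.mapDerivedCategory :=
  liftSq DerivedCategory.Q (HomologicalComplex.quasiIso A₁ (.up ℤ))
    F.mapDerivedCategoryFactors G.mapDerivedCategoryFactors H.mapDerivedCategoryFactors
    K.mapDerivedCategoryFactors
    (show F.mapHomologicalComplex (.up ℤ) ⋙ G.mapHomologicalComplex (.up ℤ) ≅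
      H.mapHomologicalComplex (.up ℤ) ⋙ K.mapHomologicalComplex (.up ℤ) from
      NatIso.mapHomologicalComplex e (.up ℤ))

/-- The twists of `E × F` by the line bundles of the surface. -/
def forg {τ₀ τ τ' : ℂ} (D : Dat τ₀ τ τ' true) : Dat τ₀ τ τ' false where
  ℓ := D.ℓ
  δ := D.δ
  fac := D.fac
  inv h := absurd h (by decide)
  invG h := absurd h (by decide)

variable {τ₀ τ τ' : ℂ}

/-- The inverse image commutes with the twists, for modules. -/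
noncomputable def resTw (D : Dat τ₀ τ τ' true) (γ : Gam) :
    D.tw γ ⋙ res τ τ' ≅ res τ τ' ⋙ (forg D).tw γ :=
  NatIso.ofComponents (fun M => Iso.refl _) (fun f => rfl)

/-- The inverse image commutes with the twists, for sheaves. -/
noncomputable def pbTw (D : Dat τ₀ τ τ' true) (γ : Gam) :
    D.twQ γ ⋙ pb τ τ' ≅ pb τ τ' ⋙ (forg D).twQ γ :=
  liftSq (sh τ τ' true) (tors τ τ' true).isoModSerre
    (Localization.Lifting.iso (sh τ τ' true) (tors τ τ' true).isoModSerre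
      (D.tw γ ⋙ sh τ τ' true) (D.twQ γ))
    (Localization.Lifting.iso (sh τ τ' true) (tors τ τ' true).isoModSerre
      (res τ τ' ⋙ sh τ τ' false) (pb τ τ'))
    (Localization.Lifting.iso (sh τ τ' true) (tors τ τ' true).isoModSerre
      (res τ τ' ⋙ sh τ τ' false) (pb τ τ'))
    (Localization.Lifting.iso (sh τ τ' false) (tors τ τ' false).isoModSerre
      ((forg D).tw γ ⋙ sh τ τ' false) ((forg D).twQ γ))
    (resTw D γ)

/-- **PBT** -/
theorem pbt : S_PBT.{w, w'} := by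
  intro τ τ' γ _ _ X hX
  have e := (derSq _ _ _ _ (pbTw (DS τ τ') γ)).app X
  exact (DbX τ τ').prop_of_iso e.symm (twd (2 * τ) τ τ' (forg (DS τ τ')) γ _ hX)

end Run7.h928.BE
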