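import Pool.Agent.Run7.h928.BE.PBT

/-!
# The piece PFD: the direct image of an object of `D^b(E × F)` is in `D^b(S)`
-/

set_option autoImplicit false
set_option linter.unusedSectionVars false

open CategoryTheory CategoryTheory.Limits Pretriangulated Triangulated Complex ZeroObject

namespace Run7.h928.BE

open Run7.h354.BE

universe w w' v u v' u'

variable {τ τ' : ℂ}

theorem W_eq {a b : Gam2} {f : ℂ × ℂ → ℂ} (h : f ∈ W τ τ' a) (e : a = b) : f ∈ W τ τ' b := e ▸ h

theorem W_mem₁ {c b : Gam2} {g : ℂ × ℂ → ℂ} (hg : g ∈ W τ τ' (c - invG τ' true b)) :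
    g ∘ inv true ∈ W τ τ' (invG τ' true c - b) :=
  W_eq (W_inv hg true) (by rw [invG_sub, invG_invG]; rfl)

theorem W_mem₂ {c b : Gam2} {g : ℂ × ℂ → ℂ} (hg : g ∈ W τ τ' (invG τ' true c - b)) :
    g ∘ inv true ∈ W τ τ' (c - invG τ' true b) :=
  W_eq (W_inv hg true) (by rw [invG_sub, invG_invG]; rfl)

theorem inv_inv {a : Gam2} {f : ℂ × ℂ → ℂ} (hf : f ∈ W τ τ' a) :
    (f ∘ inv true) ∘ inv true = f := funext fun p => W_inv_inv hf true true p

/-- The sheaf with its conjugate. -/
noncomputable abbrev rd (τ τ' : ℂ) (b : Gam2) : GM τ τ' false :=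
  (res τ τ').obj ((dir τ τ').obj (free τ τ' b))

/-- The first inclusion. -/
noncomputable def i₁ (b : Gam2) : free τ τ' b ⟶ rd τ τ' b := (lin τ τ' false).homMk
  { app := fun c => ModuleCat.ofHom (LinearMap.inl ℂ (W τ τ' (c.deg - b))
      (W τ τ' (invG τ' true c.deg - b)))
    naturality := by
      intro c d φ
      obtain ⟨e, he, f, hf⟩ := φ
      cases e
      · refine ModuleCat.hom_ext (LinearMap.ext fun x => Prod.ext ?_ ?_)
        · rfl
        · refine Subtype.ext ?_
          show (0 : ℂ × ℂ → ℂ) = (f ∘ inv true) * 0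
          rw [mul_zero]
      · exact absurd (he rfl) (by decide) }

/-- The first projection. -/
noncomputable def r₁ (b : Gam2) : rd τ τ' b ⟶ free τ τ' b := (lin τ τ' false).homMk
  { app := fun c => ModuleCat.ofHom (LinearMap.fst ℂ (W τ τ' (c.deg - b))
      (W τ τ' (invG τ' true c.deg - b)))
    naturality := by
      intro c d φ
      obtain ⟨e, he, f, hf⟩ := φ
      cases e
      · rfl
      · exact absurd (he rfl) (by decide) }

/-- The second inclusion. -/
noncomputable def i₂ (b : Gam2) : free τ τ' (invG τ' true b) ⟶ rd τ τ' b := (lin τ τ' false).homMk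
  { app := fun c => ModuleCat.ofHom
      { toFun := fun g : W τ τ' (c.deg - invG τ' true b) =>
          ((0, ⟨g.1 ∘ inv true, W_mem₁ g.2⟩) : W τ τ' (c.deg - b) ×
            W τ τ' (invG τ' true c.deg - b))
        map_add' := fun f g => Prod.ext (add_zero _).symm rfl
        map_smul' := fun c f => Prod.ext (smul_zero _).symm rfl }
    naturality := by
      intro c d φ
      obtain ⟨e, he, f, hf⟩ := φ
      cases e
      · refine ModuleCat.hom_ext (LinearMap.ext fun x => Prod.ext ?_ ?_)
        · refine Subtype.ext ?_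
          show (0 : ℂ × ℂ → ℂ) = f * 0
          rw [mul_zero]
        · rfl
      · exact absurd (he rfl) (by decide) }

/-- The second projection. -/
noncomputable def r₂ (b : Gam2) : rd τ τ' b ⟶ free τ τ' (invG τ' true b) := (lin τ τ' false).homMk
  { app := fun c => ModuleCat.ofHom
      { toFun := fun x : W τ τ' (c.deg - b) × W τ τ' (invG τ' true c.deg - b) =>
          (⟨x.2.1 ∘ inv true, W_mem₂ x.2.2⟩ : W τ τ' (c.deg - invG τ' true b))
        map_add' := fun f g => rfl
        map_smul' := fun c f => rfl }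
    naturality := by
      intro c d φ
      obtain ⟨e, he, f, hf⟩ := φ
      cases e
      · refine ModuleCat.hom_ext (LinearMap.ext fun x => Subtype.ext (funext fun p => ?_))
        let x₂ : W τ τ' (invG τ' true c.deg - b) := Prod.snd x
        show f (inv true (inv true p)) * x₂.1 (inv true p) = f p * x₂.1 (inv true p)
        rw [W_inv_inv hf]; rfl
      · exact absurd (he rfl) (by decide) }

/-- The inverse image of the direct image of a line bundle. -/
noncomputable def rdIso (b : Gam2) : rd τ τ' b ≅ free τ τ' b ⊞ free τ τ' (invG τ' true b) where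
  hom := biprod.lift (r₁ b) (r₂ b)
  inv := biprod.desc (i₁ b) (i₂ b)
  hom_inv_id := by
    rw [biprod.lift_desc]
    refine ObjectProperty.hom_ext _ (NatTrans.ext (funext fun c => ModuleCat.hom_ext
      (LinearMap.ext fun x => Prod.ext (Subtype.ext ?_) (Subtype.ext (funext fun p => ?_)))))
    · let x₁ : W τ τ' (c.deg - b) := Prod.fst x
      show x₁.1 + 0 = x₁.1
      rw [add_zero]
    · let x₂ : W τ τ' (invG τ' true c.deg - b) := Prod.snd x
      show 0 + x₂.1 (inv true (inv true p)) = x₂.1 p
      rw [zero_add, W_inv_inv x₂.2]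
      rfl
  inv_hom_id := by
    have h1 : i₁ (τ := τ) (τ' := τ') b ≫ r₁ b = 𝟙 _ := rfl
    have h2 : i₂ (τ := τ) (τ' := τ') b ≫ r₁ b = 0 := rfl
    have h3 : i₁ (τ := τ) (τ' := τ') b ≫ r₂ b = 0 := rfl
    have h4 : i₂ (τ := τ) (τ' := τ') b ≫ r₂ b = 𝟙 _ := by
      refine ObjectProperty.hom_ext _ (NatTrans.ext (funext fun c => ModuleCat.hom_ext
        (LinearMap.ext fun x => Subtype.ext (funext fun p => ?_))))
      let x' : W τ τ' (c.deg - invG τ' true b) := x
      show x'.1 (inv true (inv true p)) = x'.1 p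
      rw [W_inv_inv x'.2]
      rfl
    apply biprod.hom_ext
    · apply biprod.hom_ext' <;> simp [h1, h2]
    · apply biprod.hom_ext' <;> simp [h3, h4]

/-- **PFD** -/
theorem pfd : S_PFD.{w, w'} := by
  intro τ τ' _ _ X hX
  have h1 := retr_inv ((pf τ τ').mapDerivedCategory ⋙ (pb τ τ').mapDerivedCategory) (DbX τ τ')
  have h2 := DbX_le τ τ' ((DbX τ τ').inverseImage ((pf τ τ').mapDerivedCategory ⋙
    (pb τ τ').mapDerivedCategory)) fun b => by
    let L : GM τ τ' false ⥤ QC τ τ' false := sh τ τ' false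
    have aL : L.Additive := inferInstanceAs (sh τ τ' false).Additive
    let G := DerivedCategory.singleFunctor (QC τ τ' false) 0
    have aG : G.Additive := inferInstanceAs (DerivedCategory.singleFunctor (QC τ τ' false) 0).Additive
    have e₁ : (pf τ τ').mapDerivedCategory.obj (lb τ τ' b) ≅
        (DerivedCategory.singleFunctor (QC τ τ' true) 0).obj
          ((sh τ τ' true).obj ((dir τ τ').obj (free τ τ' b))) :=
      ((pf τ τ').mapDerivedCategorySingleFunctor 0).app _ ≪≫
        (DerivedCategory.singleFunctor _ 0).mapIso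
          ((Localization.Lifting.iso (sh τ τ' false) (tors τ τ' false).isoModSerre
            (dir τ τ' ⋙ sh τ τ' true) (pf τ τ')).app _)
    have e₂ : (pb τ τ').mapDerivedCategory.obj ((DerivedCategory.singleFunctor (QC τ τ' true) 0).obj
          ((sh τ τ' true).obj ((dir τ τ').obj (free τ τ' b)))) ≅ G.obj (L.obj (rd τ τ' b)) :=
      ((pb τ τ').mapDerivedCategorySingleFunctor 0).app _ ≪≫
        (DerivedCategory.singleFunctor _ 0).mapIso
          ((Localization.Lifting.iso (sh τ τ' true) (tors τ τ' true).isoModSerre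
            (res τ τ' ⋙ sh τ τ' false) (pb τ τ')).app _)
    have hL := preservesBinaryBiproducts_of_preservesBiproducts L
    have hG := preservesBinaryBiproducts_of_preservesBiproducts G
    have e₃ : G.obj (L.obj (rd τ τ' b)) ≅ lb τ τ' b ⊞ lb τ τ' (invG τ' true b) :=
      G.mapIso (L.mapIso (rdIso b) ≪≫ L.mapBiprod _ _) ≪≫ G.mapBiprod _ _
    refine (DbX τ τ').prop_of_iso ((pb τ τ').mapDerivedCategory.mapIso e₁ ≪≫ e₂ ≪≫ e₃).symm ?_
    exact (DbX τ τ').prop_of_isLimit_binaryFan (BinaryBiproduct.isLimit _ _)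
      (lb_mem τ τ' _) (lb_mem τ τ' _)
  exact h2 X hX

end Run7.h928.BE
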