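import Pool.Agent.Run7.h928.BE.TWF

/-!
# The pieces TWD and BDD: stability of `D^b` under the twists, and boundedness
-/

set_option autoImplicit false

open CategoryTheory CategoryTheory.Limits Pretriangulated Triangulated Complex ZeroObject

namespace Run7.h928.BE

open Run7.h354.BE

universe w v u v' u'

theorem retr_inv {C : Type u} [Category.{v} C] {D : Type u'} [Category.{v'} D] (F : C ⥤ D)
    (P : ObjectProperty D) [P.IsStableUnderRetracts] : (P.inverseImage F).IsStableUnderRetracts where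
  of_retract r hY := P.prop_of_retract (r.map F) hY

instance retr_DbX (τ τ' : ℂ) [HasDerivedCategory.{w} (QC τ τ' false)] :
    (DbX τ τ').IsStableUnderRetracts := by
  unfold DbX; infer_instance

theorem lb_mem (τ τ' : ℂ) [HasDerivedCategory.{w} (QC τ τ' false)] (a : Gam2) :
    DbX τ τ' (lb τ τ' a) :=
  ObjectProperty.le_triangEnvelope _ _ (ObjectProperty.ofObj_apply _ a)

/-- Induction for `D^b`. -/
theorem DbX_le (τ τ' : ℂ) [HasDerivedCategory.{w} (QC τ τ' false)]
    (Q : ObjectProperty (DerivedCategory (QC τ τ' false))) [Q.IsStableUnderRetracts]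
    [Q.IsTriangulated] (h : ∀ a, Q (lb τ τ' a)) : DbX τ τ' ≤ Q := by
  unfold DbX
  rw [ObjectProperty.triangEnvelope_le_iff]
  rintro _ ⟨a⟩
  exact h a

/-- The twist of a line bundle. -/
theorem tw_lb {τ₀ τ τ' : ℂ} [HasDerivedCategory.{w} (QC τ τ' false)] (D : Dat τ₀ τ τ' false)
    (γ : Gam) (a : Gam2) :
    Nonempty ((D.twQ γ).mapDerivedCategory.obj (lb τ τ' a) ≅ lb τ τ' (a - D.δ γ)) :=
  ⟨((D.twQ γ).mapDerivedCategorySingleFunctor 0).app _ ≪≫
    (DerivedCategory.singleFunctor _ 0).mapIso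
      (twSh D γ (fm (fW τ τ') a) ≪≫ (sh _ _ false).mapIso (twFm D γ (fW τ τ') a))⟩

/-- **TWD** -/
theorem twd : S_TWD.{w} := by
  intro τ₀ τ τ' D γ _ X hX
  have h1 := retr_inv (D.twQ γ).mapDerivedCategory (DbX τ τ')
  have h2 := DbX_le τ τ' ((DbX τ τ').inverseImage (D.twQ γ).mapDerivedCategory) fun a => by
    obtain ⟨e⟩ := tw_lb D γ a
    exact (DbX τ τ').prop_of_iso e.symm (lb_mem τ τ' _)
  exact h2 X hX

instance retr_bdd {A : Type u} [Category.{v} A] [Abelian A] [HasDerivedCategory.{w} A] :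
    (DerivedCategory.TStructure.t (C := A)).bounded.IsStableUnderRetracts where
  of_retract {X Y} r := by
    rintro ⟨⟨n, hn⟩, m, hm⟩
    have hn' : Y.IsGE n := hn
    have hm' : Y.IsLE m := hm
    have key : ∀ i, IsZero ((DerivedCategory.homologyFunctor A i).obj Y) →
        IsZero ((DerivedCategory.homologyFunctor A i).obj X) := fun i h =>
      IsZero.of_mono (r.map (DerivedCategory.homologyFunctor A i)).i h
    exact ⟨⟨n, (DerivedCategory.isGE_iff X n).2 fun i hi => key i (Y.isZero_of_isGE n i hi)⟩,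
      m, (DerivedCategory.isLE_iff X m).2 fun i hi => key i (Y.isZero_of_isLE m i hi)⟩

/-- **BDD** -/
theorem bdd : S_BDD.{w} := by
  intro τ τ' _ X hX
  have h := DbX_le τ τ' (DerivedCategory.TStructure.t (C := QC τ τ' false)).bounded fun a =>
    ⟨⟨0, inferInstanceAs (((DerivedCategory.singleFunctor _ 0).obj
      ((sh τ τ' false).obj (free τ τ' a))).IsGE 0)⟩,
    ⟨0, inferInstanceAs (((DerivedCategory.singleFunctor _ 0).obj
      ((sh τ τ' false).obj (free τ τ' a))).IsLE 0)⟩⟩
  obtain ⟨⟨n, hn⟩, m, hm⟩ := h X hX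
  exact ⟨m, n, hm, hn⟩

end Run7.h928.BE
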