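import Pool.Agent.Run7.h354.BE.Stm3

/-!
# The piece TWF: the twists of the sheaves of functions
-/

set_option autoImplicit false

open CategoryTheory CategoryTheory.Limits Complex ZeroObject

namespace Run7.h928.BE

open Run7.h354.BE

variable {τ₀ τ τ' : ℂ}

theorem U_eq (X : FM τ τ') {a b : Gam2} {ψ : X.T → ℂ} (h : ψ ∈ X.U a) (e : a = b) : ψ ∈ X.U b :=
  e ▸ h

/-- The twist of a module of functions. -/
noncomputable def twFm (D : Dat τ₀ τ τ' false) (γ : Gam) (X : FM τ τ') (b : Gam2) :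
    (D.tw γ).obj (fm X b) ≅ fm X (b - D.δ γ) where
  hom := (lin τ τ' false).homMk
    { app := fun x => ModuleCat.ofHom
        { toFun := fun ψ => ⟨(ψ : X.U (x.deg + D.δ γ - b)).1,
            U_eq X (ψ : X.U (x.deg + D.δ γ - b)).2 (by
              show x.deg + D.δ γ - b = x.deg - (b - D.δ γ); abel)⟩
          map_add' := fun f g => rfl
          map_smul' := fun c f => rfl }
      naturality := fun c d φ => rfl }
  inv := (lin τ τ' false).homMk
    { app := fun x => ModuleCat.ofHom
        { toFun := fun ψ => (⟨(ψ : X.U (x.deg - (b - D.δ γ))).1,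
            U_eq X (ψ : X.U (x.deg - (b - D.δ γ))).2 (by abel)⟩ :
              X.U (x.deg + D.δ γ - b))
          map_add' := fun f g => rfl
          map_smul' := fun c f => rfl }
      naturality := fun c d φ => rfl }
  hom_inv_id := rfl
  inv_hom_id := rfl

/-- The twist of a sheaf. -/
noncomputable def twSh {s : Bool} (D : Dat τ₀ τ τ' s) (γ : Gam) (M : GM τ τ' s) :
    (D.twQ γ).obj ((sh τ τ' s).obj M) ≅ (sh τ τ' s).obj ((D.tw γ).obj M) :=
  (Localization.Lifting.iso (sh τ τ' s) (tors τ τ' s).isoModSerre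
    (D.tw γ ⋙ sh τ τ' s) (D.twQ γ)).app M

/-- **TWF** -/
theorem main : S_TWF := fun _ _ _ D γ X b =>
  ⟨⟨twFm D γ X b⟩, ⟨twSh D γ (fm X b) ≪≫ (sh _ _ false).mapIso (twFm D γ X b)⟩⟩

end Run7.h928.BE
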